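import Pool.Agent.MP_678834_nt.hl.Spec
import Pool.Agent.MP_db1c88_nt.z94.Basic2

/-! Shared lemmas. -/

set_option autoImplicit false

open MeasureTheory Finset Filter ArithmeticFunction
open Pool.Agent.MP_db1c88_nt.z94 (ei DP blk FF)

noncomputable section

namespace Pool.Agent.MP_678834_nt.hl

/-! ### the Gaussian -/

theorem gs_pos (u : ℝ) : 0 < gs u := Real.exp_pos _

theorem gs_le_one (u : ℝ) : gs u ≤ 1 := sorry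

theorem gs_neg (u : ℝ) : gs (-u) = gs u := sorry

@[simp] theorem gs_zero : gs 0 = 1 := sorry

theorem gs_anti {u v : ℝ} (h : |u| ≤ |v|) : gs v ≤ gs u := sorry

theorem gs_lip (u v : ℝ) : |gs u - gs v| ≤ |u - v| := sorry

theorem gs_tail {u z : ℝ} (hz : 0 ≤ z) (h : z ≤ |u|) : gs u ≤ Real.exp (-z ^ 2 / 2) := sorry

theorem gs_ge {u : ℝ} (h : |u| ≤ 1) : 3 / 5 ≤ gs u := sorry

@[fun_prop] theorem continuous_gs : Continuous gs := sorry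

theorem integrable_gs {U : ℝ} (hU : 0 < U) (s : ℝ) : Integrable fun t => gs ((t - s) / U) := sorry

theorem integral_gs {U : ℝ} (hU : 0 < U) (s : ℝ) :
    ∫ t, gs ((t - s) / U) = √(2 * Real.pi) * U := sorry

theorem sqrt_two_pi : 5 / 2 ≤ √(2 * Real.pi) ∧ √(2 * Real.pi) ≤ 2.51 := sorry

/-- Fourier transform of the Gaussian -/
theorem gauss_ft {U : ℝ} (hU : 0 < U) (s l : ℝ) :
    ∫ t, (gs ((t - s) / U) : ℂ) * ei (t * l) =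
      (√(2 * Real.pi) * U : ℝ) * (ei (s * l) * gs (U * l)) := sorry

/-- Gaussian mean square of an exponential polynomial -/
theorem gq {ι : Type} {U : ℝ} (hU : 0 < U) (s : ℝ) (S : Finset ι) (c : ι → ℂ) (l : ι → ℝ) :
    ((∫ t, gs ((t - s) / U) * ‖∑ i ∈ S, c i * ei (t * l i)‖ ^ 2 : ℝ) : ℂ) =
      (√(2 * Real.pi) * U : ℝ) * ∑ i ∈ S, ∑ j ∈ S,
        c i * (starRingEnd ℂ) (c j) * (ei (s * (l i - l j)) * gs (U * (l i - l j))) := sorry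

theorem gq_le {ι : Type} {U : ℝ} (hU : 0 < U) (s : ℝ) (S : Finset ι) (c : ι → ℂ) (l : ι → ℝ) :
    ∫ t in s - U..s + U, ‖∑ i ∈ S, c i * ei (t * l i)‖ ^ 2 ≤
      5 * U * ∑ i ∈ S, ∑ j ∈ S, ‖c i‖ * ‖c j‖ * gs (U * (l i - l j)) := sorry

/-- sum of the Gaussian over an arithmetic progression -/
theorem sum_gs_le {a : ℝ} (ha : 0 < a) (x : ℝ) (S : Finset ℤ) :
    ∑ k ∈ S, gs (a * (k - x)) ≤ 2 + 3 / a := sorry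

/-! ### exponential sums -/

theorem ex_eq_ei (x : ℝ) : ex x = ei (2 * Real.pi * x) := sorry

@[fun_prop] theorem continuous_ex : Continuous ex := sorry

theorem ei_lip (x y : ℝ) : ‖ei x - ei y‖ ≤ |x - y| := sorry

theorem geom_le (u v : ℕ) {β : ℝ} (h : β - round β ≠ 0) :
    ‖∑ n ∈ Ioc u v, ex (n * β)‖ ≤ 1 / (2 * |β - round β|) := sorry

/-- partial summation, decreasing weight -/
theorem abel_anti {u v : ℕ} {a : ℕ → ℂ} {w : ℕ → ℝ} {B W : ℝ}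
    (ha : ∀ y, u ≤ y → y ≤ v → ‖∑ n ∈ Ioc u y, a n‖ ≤ B) (hw : AntitoneOn w (Set.Ioc u v))
    (h0 : ∀ n ∈ Ioc u v, 0 ≤ w n ∧ w n ≤ W) (hW : 0 ≤ W) :
    ‖∑ n ∈ Ioc u v, a n * w n‖ ≤ B * W := sorry

/-- partial summation, increasing weight -/
theorem abel_mono {u v : ℕ} {a : ℕ → ℂ} {w : ℕ → ℝ} {B W : ℝ}
    (ha : ∀ y, u ≤ y → y ≤ v → ‖∑ n ∈ Ioc u y, a n‖ ≤ B) (hw : MonotoneOn w (Set.Ioc u v))
    (h0 : ∀ n ∈ Ioc u v, 0 ≤ w n ∧ w n ≤ W) (hW : 0 ≤ W) :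
    ‖∑ n ∈ Ioc u v, a n * w n‖ ≤ 2 * B * W := sorry

/-- partial summation, Gaussian weight -/
theorem abel_gs {u v : ℕ} {a : ℕ → ℂ} {B Y : ℝ} (hY : 0 < Y) (x : ℝ) (huv : u ≤ v)
    (ha : ∀ y, u ≤ y → y ≤ v → ‖∑ n ∈ Ioc u y, a n‖ ≤ B) :
    ‖∑ n ∈ Ioc u v, a n * gs ((n - x) / Y)‖ ≤ 4 * B := sorry

/-! ### divisors -/

theorem dv_nonneg (n : ℕ) : 0 ≤ dv n := Nat.cast_nonneg _

theorem one_le_dv {n : ℕ} (hn : n ≠ 0) : 1 ≤ dv n := sorry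

theorem dv_le_self (n : ℕ) : dv n ≤ n := sorry

theorem dv_mul (a b : ℕ) : dv (a * b) ≤ dv a * dv b := sorry

theorem dv_dvd {a b : ℕ} (h : a ∣ b) (hb : b ≠ 0) : dv a ≤ dv b := sorry

theorem dv_bound {δ : ℝ} (hδ : 0 < δ) (k : ℕ) :
    ∀ᶠ X : ℝ in atTop, ∀ n : ℕ, (n : ℝ) ≤ X ^ 3 → dv n ^ k ≤ X ^ δ := sorry

theorem sum_dv_pow_div (k : ℕ) : ∃ C : ℕ, ∀ y : ℕ,
    ∑ n ∈ Icc 1 y, dv n ^ k / n ≤ (2 + Real.log y) ^ C := sorry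

theorem sum_dv_pow (k : ℕ) : ∃ C : ℕ, ∀ y : ℕ,
    ∑ n ∈ Icc 1 y, dv n ^ k ≤ y * (2 + Real.log y) ^ C := sorry

/-- the form used in the modules -/
theorem ev_sum_dv (k : ℕ) : ∃ C : ℕ, ∀ c : ℝ, 1 ≤ c → ∀ᶠ X : ℝ in atTop, ∀ (y : ℝ) (s : Finset ℕ),
    1 ≤ y → y ≤ X ^ 2 → (∀ n ∈ s, 1 ≤ n ∧ (n : ℝ) ≤ c * y) →
      ∑ n ∈ s, dv n ^ k ≤ y * Real.log X ^ C ∧ ∑ n ∈ s, dv n ^ k / n ≤ Real.log X ^ C := sorry

theorem conv_bound {f g : ArithmeticFunction ℂ} {a b : ℝ} {j k : ℕ} (ha : 0 ≤ a) (hb : 0 ≤ b)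
    (hf : ∀ n, ‖f n‖ ≤ a * dv n ^ j) (hg : ∀ n, ‖g n‖ ≤ b * dv n ^ k) (n : ℕ) :
    ‖(f * g) n‖ ≤ a * b * dv n ^ (j + k + 1) := sorry

/-- the product of two blocks -/
theorem DP_mul {N M c d : ℝ} (hN : 1 ≤ N) (hM : 1 ≤ M) (hc : 1 ≤ c) (hd : 1 ≤ d) {f g : ℕ → ℂ}
    {a b : ℝ} {j k : ℕ} (ha : 0 ≤ a) (hb : 0 ≤ b) (hf : ∀ n, ‖f n‖ ≤ a * dv n ^ j)
    (hg : ∀ n, ‖g n‖ ≤ b * dv n ^ k) :
    ∃ p : ℕ → ℂ, (∀ n, ‖p n‖ ≤ a * b * dv n ^ (j + k + 1)) ∧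
      ∀ ψ : ℕ → ℂ, (∀ m n, ψ (m * n) = ψ m * ψ n) → ∀ t : ℝ,
        DP (blk N c) (fun n => f n * ψ n) t * DP (blk M d) (fun n => g n * ψ n) t =
          DP (blk (N * M) (c * d)) (fun n => p n * ψ n) t := sorry

/-- a sum against a convolution, as a double sum -/
theorem sum_conv {f g : ArithmeticFunction ℂ} {s s₁ s₂ : Finset ℕ} (h₁ : ∀ m, f m ≠ 0 → m ∈ s₁)
    (h₂ : ∀ r, g r ≠ 0 → r ∈ s₂) (h : ∀ m r, f m ≠ 0 → g r ≠ 0 → m * r ∈ s) (ψ : ℕ → ℂ) :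
    ∑ n ∈ s, (f * g) n * ψ n = ∑ m ∈ s₁, ∑ r ∈ s₂, f m * g r * ψ (m * r) := sorry

/-! ### pieces -/

theorem fac_supp {Z : ℝ} {i : Fin 6} {k n : ℕ} (h : fac Z i k n ≠ 0) :
    2 ^ k < 2 * n ∧ n ≤ 2 ^ k := sorry

theorem pc_supp {Z : ℝ} {k : Fin 6 → ℕ} {G : Finset (Fin 6)} (hG : G.Nonempty) {n : ℕ}
    (h : pc Z k G n ≠ 0) : 2 ^ ∑ i ∈ G, k i < 2 ^ G.card * n ∧ n ≤ 2 ^ ∑ i ∈ G, k i := sorry

theorem pc_bound {Z L : ℝ} {k : Fin 6 → ℕ} {G : Finset (Fin 6)} (hG : G.Nonempty) (hL : 1 ≤ L)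
    (hk : (k 5 : ℝ) * Real.log 2 ≤ L) (n : ℕ) : ‖pc Z k G n‖ ≤ L * dv n ^ (G.card - 1) := sorry

/-- a sum of a product of factors against a completely multiplicative function -/
theorem sum_pc {Z : ℝ} {k : Fin 6 → ℕ} {G : Finset (Fin 6)} {s : Finset ℕ}
    (hs : ∀ n, pc Z k G n ≠ 0 → n ∈ s) {ψ : ℕ → ℂ} (h1 : ψ 1 = 1)
    (hψ : ∀ m n, ψ (m * n) = ψ m * ψ n) :
    ∑ n ∈ s, pc Z k G n * ψ n = ∏ i ∈ G, ∑ n ∈ Icc 1 (2 ^ k i), fac Z i (k i) n * ψ n := sorry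

/-! ### the model and the kernel -/

theorem norm_mdl_le (R n : ℕ) : ‖mdl R n‖ ≤ R := sorry

theorem lam_nonneg {H Y : ℝ} (hH : 0 ≤ H) (hY : 0 ≤ Y) (η : ℝ) : 0 ≤ lam H Y η := sorry

theorem lam_le {H Y : ℝ} (hH : 0 ≤ H) (hY : 0 ≤ Y) (η : ℝ) : lam H Y η ≤ H / Y := sorry

theorem norm_kk_le {H Y : ℝ} (hH : 0 < H) (hY : H ≤ Y) (η u : ℝ) :
    ‖kk H Y η u‖ ≤ 2 * gs (u / Y) := sorry

@[fun_prop] theorem continuous_kk (H Y η : ℝ) : Continuous (kk H Y η) := sorry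

@[fun_prop] theorem continuous_Del (s : Finset ℕ) (F : ℕ → ℂ) (H Y η : ℝ) :
    Continuous (Del s F H Y η) := sorry

theorem norm_exc_le (q a n : ℕ) : ‖exc q a n‖ ≤ 1 := sorry

/-! ### eventual inequalities -/

theorem ev_const (C : ℝ) : ∀ᶠ X : ℝ in atTop, C ≤ Real.log X := sorry

theorem ev_log (C : ℝ) (A : ℕ) {δ : ℝ} (hδ : 0 < δ) :
    ∀ᶠ X : ℝ in atTop, C * Real.log X ^ A ≤ X ^ δ := sorry

theorem ev_exp (C : ℝ) (k : ℕ) {c : ℝ} (hc : 0 < c) :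
    ∀ᶠ X : ℝ in atTop, C * X ^ k * Real.exp (-(c * Real.log X ^ 2)) ≤ 1 := sorry

theorem ev_HY (D : ℕ) : ∀ᶠ X : ℝ in atTop, X ^ (1 / 5 : ℝ) ≤ YY X D ∧ YY X D ≤ X := sorry

end Pool.Agent.MP_678834_nt.hl
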