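import Mathlib

set_option autoImplicit false

namespace Pool.Agent.MP_678834_nt.hl

/-! ### the linear programme -/

/-- `h i` says that group `i` is at a high level; low groups have level `w`. -/
theorem lp {e u t w n₀ n₁ n₂ v₀ v₁ v₂ : ℝ} {h₀ h₁ h₂ : Prop} (he : 0 < e) (he' : e ≤ 1 / 100)
    (hs : n₀ + n₁ + n₂ ≤ 1 + e / 1000) (hn₀ : n₀ ≤ 1 / 2 + e / 100) (hn₁ : n₁ ≤ 5 / 12 - e / 4)
    (hn₂ : n₂ ≤ 5 / 12 - e / 4) (hu : 0 ≤ u) (htu : t - u ≤ 5 / 6 - e + e / 1000)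
    (hw0 : 0 ≤ w) (hw : w ≤ e / 1000) (a₀ : h₀ → w < v₀) (b₀ : ¬ h₀ → v₀ = w) (a₁ : h₁ → w < v₁)
    (b₁ : ¬ h₁ → v₁ = w) (a₂ : h₂ → w < v₂) (b₂ : ¬ h₂ → v₂ = w) (hh : h₀ ∨ h₁ ∨ h₂) :
    t + (v₀ + v₁ + v₂) ≤ 1 - e / 50 ∨
    (h₀ ∧ max t (2 * n₀) - u - 2 * v₀ + (v₀ + v₁ + v₂) ≤ 1 - e / 50) ∨
    (h₁ ∧ max t (2 * n₁) - u - 2 * v₁ + (v₀ + v₁ + v₂) ≤ 1 - e / 50) ∨
    (h₂ ∧ max t (2 * n₂) - u - 2 * v₂ + (v₀ + v₁ + v₂) ≤ 1 - e / 50) ∨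
    (h₁ ∧ h₂ ∧ max t (2 * (n₁ + n₂)) - u - 2 * (v₁ + v₂) + (v₀ + v₁ + v₂) ≤ 1 - e / 50) ∨
    (h₀ ∧ h₁ ∧ t + v₂ ≤ 1 - e / 50) ∨ (h₀ ∧ h₂ ∧ t + v₁ ≤ 1 - e / 50) ∨
    (h₀ ∧ h₁ ∧ n₀ + n₁ + e / 50 ≤ 2 * (v₀ + v₁) ∧
      t - u + (n₀ + n₁) - 2 * (v₀ + v₁) + v₂ ≤ 1 - e / 50) ∨
    (h₀ ∧ h₂ ∧ n₀ + n₂ + e / 50 ≤ 2 * (v₀ + v₂) ∧
      t - u + (n₀ + n₂) - 2 * (v₀ + v₂) + v₁ ≤ 1 - e / 50) ∨
    (h₁ ∧ h₂ ∧ n₁ + n₂ + e / 50 ≤ 2 * (v₁ + v₂) ∧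
      t - u + (n₁ + n₂) - 2 * (v₁ + v₂) + v₀ ≤ 1 - e / 50) := by
  by_contra hc
  simp only [not_or, not_and, not_le, ← sub_lt_iff_lt_add, lt_sub_iff_add_lt, lt_max_iff] at hc
  obtain ⟨c1, c2, c3, c4, c5, c6, c7, c8, c9, c10⟩ := hc
  by_cases g₀ : h₀ <;> by_cases g₁ : h₁ <;> by_cases g₂ : h₂ <;>
    simp only [g₀, g₁, g₂, forall_const, not_true, not_false_iff, false_imp_iff, or_self,
      IsEmpty.forall_iff] at *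
  all_goals
    first
    | (rcases le_or_gt (n₀ + n₁ + e / 50) (2 * (v₀ + v₁)) with d8 | d8 <;>
       rcases le_or_gt (n₀ + n₂ + e / 50) (2 * (v₀ + v₂)) with d9 | d9 <;>
       rcases le_or_gt (n₁ + n₂ + e / 50) (2 * (v₁ + v₂)) with d10 | d10 <;>
       (try have := c8 d8) <;> (try have := c9 d9) <;> (try have := c10 d10) <;>
       (try rcases c2 with c2 | c2) <;> (try rcases c3 with c3 | c3) <;>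
       (try rcases c4 with c4 | c4) <;> (try rcases c5 with c5 | c5) <;> linarith)

end Pool.Agent.MP_678834_nt.hl
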