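import Mathlib
import Pool.Agent.MP_678834_nt.SingB
import Pool.Agent.MP_db1c88_nt.z94.Basic

/-! Definitions and module statements: prime pairs for almost all shifts in a short window. -/

set_option autoImplicit false

open MeasureTheory Finset Filter ArithmeticFunction
open Pool.Agent.MP_db1c88_nt.z94 (ei DP blk FF)

noncomputable section

namespace Pool.Agent.MP_678834_nt.hl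

/-- the Gaussian -/
def gs (u : ℝ) : ℝ := Real.exp (-u ^ 2 / 2)

/-- number of divisors -/
def dv (n : ℕ) : ℝ := n.divisors.card

/-- the model of the von Mangoldt function -/
def mdl (R n : ℕ) : ℂ := ∑ q ∈ Icc 1 R, ∑ a ∈ (range q).filter (fun a => a.Coprime q),
  ((moebius q : ℤ) : ℂ) / (q.totient : ℂ) * ex (n * (a / q))

def lam (H Y η : ℝ) : ℝ := H / Y * Real.exp (-(2 * Real.pi ^ 2 * H ^ 2 * η ^ 2))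

/-- short window minus long window; its integral is zero -/
def kk (H Y η u : ℝ) : ℂ := gs (u / H) * ex (u * η) - lam H Y η * gs (u / Y)

def JX (X : ℝ) : Finset ℕ := Ioc ⌊X / 2⌋₊ ⌊5 * X⌋₊

def SX (X : ℝ) : Finset ℕ := blk (X / 128) 40960

def Del (s : Finset ℕ) (F : ℕ → ℂ) (H Y η x : ℝ) : ℂ := ∑ n ∈ s, F n * kk H Y η (n - x)

/-- length of the long window -/
def YY (X : ℝ) (D : ℕ) : ℝ := X / Real.log X ^ (2 * D)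

/-- Dirichlet approximation data -/
structure Appr (Q : ℝ) (q a : ℕ) (η : ℝ) : Prop where
  pos : 1 ≤ q
  le : (q : ℝ) ≤ Q
  cop : a.Coprime q
  eta : |η| ≤ 1 / (q * Q)

/-- the additive character on integers coprime to `q` -/
def exc (q a n : ℕ) : ℂ := if n.Coprime q then ex (n * (a / q)) else 0

def win (U : ℝ) (j : ℤ) : Set ℝ := Set.Ico (j * U) ((j + 1) * U)

/-- sum over windows of the squares of the local integrals -/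
def WS (T U : ℝ) (E : Set ℝ) (f : ℝ → ℝ) : ℝ :=
  1 / U * ∑ j ∈ Icc (-⌈T / U⌉) ⌈T / U⌉, (∫ t in E ∩ win U j, f t) ^ 2

def EE (T₂ T : ℝ) : Set ℝ := {t | T₂ ≤ |t| ∧ |t| ≤ T}

/-- a family of windows in each of which `E` has density at least `ρ` -/
structure Dns (T U ρ : ℝ) (J : Finset ℤ) (E : Set ℝ) : Prop where
  meas : MeasurableSet E
  sub : E ⊆ Set.Icc (-T) T
  den : ∀ j ∈ J, ρ * U ≤ volume.real (E ∩ win U j)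

/-- Vinogradov's mean value -/
def JV (s K P : ℕ) : ℕ :=
  (((Fintype.piFinset fun _ : Fin s => Icc 1 P) ×ˢ (Fintype.piFinset fun _ : Fin s => Icc 1 P)).filter
    fun z => ∀ j ∈ Icc 1 K, ∑ i, z.1 i ^ j = ∑ i, z.2 i ^ j).card

/-- the six coefficient types of the Heath-Brown identity -/
def alp (i : Fin 6) (n : ℕ) : ℝ :=
  if i.val < 3 then ((moebius n : ℤ) : ℝ) else if i.val < 5 then 1 else Real.log n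

def typ (Z : ℝ) (i : Fin 6) (n : ℕ) : ℝ := if i.val < 3 ∧ Z < n then 0 else alp i n

/-- a dyadic factor, supported in `(2 ^ k / 2, 2 ^ k]` -/
def fac (Z : ℝ) (i : Fin 6) (k : ℕ) : ArithmeticFunction ℂ :=
  ⟨fun n => if 2 ^ k < 2 * n ∧ n ≤ 2 ^ k then (typ Z i n : ℂ) else 0, by simp⟩

/-- product of the factors with index in `G` -/
def pc (Z : ℝ) (k : Fin 6 → ℕ) (G : Finset (Fin 6)) : ArithmeticFunction ℂ := ∏ i ∈ G, fac Z i (k i)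

/-! ### The zero-free region -/

/-- Linnik's lemma -/
def LinnikStmt : Prop := ∀ (K p P : ℕ) (a : ℤ) (u : Fin K → ℕ), p.Prime → K < p → P < p ^ K →
  ((Fintype.piFinset fun _ : Fin K => Icc 1 P).filter fun w =>
    (∀ i j, i ≠ j → ¬ w i ≡ w j [MOD p]) ∧ ∀ j ∈ Icc 1 K,
      ((p : ℤ) ^ j ∣ ∑ i, ((w i : ℤ) - a) ^ j - ∑ i, ((u i : ℤ) - a) ^ j)).card ≤
    K ^ K * p ^ (K * (K - 1) / 2)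

def VmvtStmt : Prop := ∀ K P : ℕ, 1 ≤ K → 1 ≤ P →
  (JV (4 * K ^ 3) K P : ℝ) ≤
    Real.exp (500 * (K : ℝ) ^ 9) * (P : ℝ) ^ (8 * (K : ℝ) ^ 3 - K * (K + 1) / 2 + 1 / 50)

def VsumStmt : Prop := ∀ (k N N' : ℕ) (α t : ℝ), 1 ≤ k → 10 ^ 12 * (k : ℝ) ^ 9 ≤ Real.log N →
  N ≤ N' → N' ≤ 2 * N → 0 ≤ α → α ≤ 1 → (N : ℝ) ^ (5 / 12 : ℝ) ≤ |t| → |t| ≤ (N : ℝ) ^ k →
    ‖∑ n ∈ Ioc N N', ei (t * Real.log (n + α))‖ ≤ 10 * (N : ℝ) ^ (1 - 1 / (10 ^ 8 * (k : ℝ) ^ 6))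

def LbndStmt : Prop := ∀ B : ℕ, ∀ᶠ X : ℝ in atTop, ∀ (q : ℕ) [NeZero q]
  (χ : DirichletCharacter ℂ q) (s : ℂ), (q : ℝ) ≤ Real.log X ^ B →
    1 - Real.log X ^ (-(1 / 3) : ℝ) ≤ s.re → s.re ≤ 3 → 1 ≤ |s.im| → |s.im| ≤ 5 * X →
    ‖DirichletCharacter.LFunction χ s‖ ≤ Real.exp (Real.log X ^ (5 / 8 : ℝ))

def ZfStmt : Prop := ∀ B : ℕ, ∀ᶠ X : ℝ in atTop, ∀ (q : ℕ) [NeZero q]
  (χ : DirichletCharacter ℂ q) (s : ℂ), (q : ℝ) ≤ Real.log X ^ B →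
    1 - Real.log X ^ (-(24 / 25) : ℝ) ≤ s.re → s.re ≤ 2 → 2 ≤ |s.im| → |s.im| ≤ 2 * X →
    DirichletCharacter.LFunction χ s ≠ 0 ∧ ‖DirichletCharacter.LFunction χ s‖ ≤ Real.log X ^ 2 ∧
      ‖(DirichletCharacter.LFunction χ s)⁻¹‖ ≤ Real.log X ^ 2 ∧
      ‖deriv (DirichletCharacter.LFunction χ) s‖ ≤ Real.log X ^ 4

def PwStmt : Prop := ∀ A B : ℕ, ∃ D : ℕ, ∀ᶠ X : ℝ in atTop, ∀ (q : ℕ) [NeZero q]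
  (χ : DirichletCharacter ℂ q) (i : Fin 6) (y t : ℝ), (q : ℝ) ≤ Real.log X ^ B →
    X ^ (1 / 100 : ℝ) ≤ y → y ≤ X → Real.log X ^ D ≤ |t| → |t| ≤ X →
    ‖DP (Icc 1 ⌊y⌋₊) (fun n => (alp i n : ℂ) * χ n) t‖ ≤ y / Real.log X ^ A

/-! ### Siegel-Walfisz -/

def SiegelStmt : Prop := ∀ ε : ℝ, 0 < ε → ∃ c : ℝ, 0 < c ∧ ∀ (q : ℕ) [NeZero q]
  (χ : DirichletCharacter ℂ q), χ ≠ 1 → χ ^ 2 = 1 →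
    c * (q : ℝ) ^ (-ε) ≤ ‖DirichletCharacter.LFunction χ 1‖

def SwfStmt : Prop := ∀ A B : ℕ, ∀ᶠ X : ℝ in atTop, ∀ q a y : ℕ, 1 ≤ q →
  (q : ℝ) ≤ Real.log X ^ B → a.Coprime q → X / 3 ≤ y → (y : ℝ) ≤ 5 * X →
    ‖∑ n ∈ Icc 1 y, (vonMangoldt n : ℂ) * ex (n * (a / q)) -
      ((moebius q : ℤ) : ℂ) / (q.totient : ℂ) * y‖ ≤ X / Real.log X ^ A

/-! ### The model -/

def CorrStmt : Prop := ∀ R u v h : ℕ, 1 ≤ R → u ≤ v →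
  ‖∑ n ∈ Ioc u v, mdl R n * mdl R (n + h) - (sigQ R h : ℂ) * ((v : ℂ) - u)‖ ≤ (R : ℝ) ^ 6 ∧
    ∑ n ∈ Ioc u v, ‖mdl R n‖ ^ 2 ≤ sigQ R 0 * ((v : ℝ) - u) + (R : ℝ) ^ 6

def SingStmt : Prop := ∃ C : ℕ, ∀ᶠ X : ℝ in atTop, ∀ R h₀ K : ℕ, 1 ≤ R →
  (R : ℝ) ≤ X ^ (1 / 10 : ℝ) → X ^ (1 / 6 : ℝ) ≤ K → (h₀ : ℝ) + K ≤ 2 * X →
    ∑ h ∈ Ioc h₀ (h₀ + K), |sing h - sigQ R h| ≤ K * Real.log X ^ C / √R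

def LocStmt : Prop := ∀ A : ℕ, ∃ B₀ : ℕ, ∀ B : ℕ, B₀ ≤ B → ∀ D : ℕ, ∀ᶠ X : ℝ in atTop,
  ∀ (q a : ℕ) (x : ℝ), 1 ≤ q → (q : ℝ) ≤ Real.log X ^ (2 * B) → a.Coprime q → X ≤ x → x ≤ 4 * X →
    ‖∑ n ∈ JX X, ((vonMangoldt n : ℂ) - mdl ⌊Real.log X ^ B⌋₊ n) * ex (n * (a / q)) *
      gs ((n - x) / YY X D)‖ ≤ YY X D / Real.log X ^ A

def DelMdlStmt : Prop := ∀ A : ℕ, ∃ B₀ : ℕ, ∀ B : ℕ, B₀ ≤ B → ∀ D : ℕ, 1 ≤ D →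
  ∀ᶠ X : ℝ in atTop, ∀ (q a : ℕ) (η H x : ℝ), Appr (Real.log X ^ (2 * B)) q a η →
    X ^ (1 / 6 : ℝ) ≤ H → H ≤ X ^ (1 / 5 : ℝ) → X ≤ x → x ≤ 4 * X →
    ‖Del (JX X) (fun n => mdl ⌊Real.log X ^ B⌋₊ n * ex (n * (a / q))) H (YY X D) η x‖ ≤
      H / Real.log X ^ A

/-! ### Reduction to short exponential sums -/

def RedStmt : Prop := ∀ A C : ℕ, ∀ᶠ X : ℝ in atTop, ∀ (H Γ : ℝ) (u v K : ℕ) (h₀ : ℤ) (f : ℕ → ℂ)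
  (G : ℤ → ℂ), X ^ (1 / 6 : ℝ) ≤ H → H ≤ X ^ (1 / 5 : ℝ) → X ≤ u → u ≤ v → (v : ℝ) ≤ 4 * X →
    (K : ℝ) ≤ 2 * H → (∀ n, ‖f n‖ ≤ Real.log X ^ C) → (∀ m, ‖G m‖ ≤ Real.log X ^ C) →
    (∀ m, m ∉ Icc (1 : ℤ) ⌊4 * X⌋ → G m = 0) →
    (∀ α : ℝ, ∫ x in X..4 * X, ‖∑ n ∈ JX X, f n * ex (n * α) * gs ((n - x) / H)‖ ^ 2 ≤ Γ) →
    ∑ h ∈ Ioc h₀ (h₀ + K), ‖∑ n ∈ Ioc u v, f n * G (n + h)‖ ^ 2 ≤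
      Real.log X * Γ * (∑ m ∈ Icc (1 : ℤ) ⌊4 * X⌋, ‖G m‖ ^ 2) / H + X ^ 2 * H / Real.log X ^ A

/-! ### Mean values -/

def BilStmt : Prop := ∃ C : ℝ, 1 ≤ C ∧ ∀ (U y₀ : ℝ) (J : Finset ℤ) (S : Set ℝ) (A : ℝ → ℂ), 0 < U →
  Continuous A → MeasurableSet S → S ⊆ ⋃ j ∈ J, win U j →
    ∫ y in y₀..y₀ + 1 / U, ‖∫ t in S, A t * ei (-(t * y))‖ ^ 2 ≤
        C / U * ∑ j ∈ J, (∫ t in S ∩ win U j, ‖A t‖) ^ 2 ∧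
      ∫ y in y₀..y₀ + 1 / U, ‖∫ t in S, A t * ei (-(t * y))‖ ^ 2 ≤ C * ∫ t in S, ‖A t‖ ^ 2

def MvtStmt : Prop := ∃ C : ℝ, 1 ≤ C ∧ ∀ (y T : ℝ) (s : Finset ℕ) (F : ℕ → ℂ), 1 ≤ T → 1 ≤ y →
  (∀ n ∈ s, 1 ≤ n ∧ (n : ℝ) ≤ y) →
    ∫ t in -T..T, ‖DP s F t‖ ^ 2 ≤ C * (T + y) * ∑ n ∈ s, ‖F n‖ ^ 2

def HmvtStmt : Prop := ∃ C : ℝ, 1 ≤ C ∧ ∀ (q : ℕ) [NeZero q] (y T : ℝ) (s : Finset ℕ) (F : ℕ → ℂ),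
  1 ≤ T → 1 ≤ y → (∀ n ∈ s, 1 ≤ n ∧ (n : ℝ) ≤ y) →
    ∑ χ : DirichletCharacter ℂ q, ∫ t in -T..T, ‖DP s (fun n => F n * χ n) t‖ ^ 2 ≤
      C * q.totient * (T + y / q) * ∑ n ∈ s, ‖F n‖ ^ 2

/-- the off-diagonal part of the local mean square -/
def SStmt : Prop := ∀ δ : ℝ, 0 < δ → ∀ c : ℝ, 1 ≤ c → ∀ᶠ X : ℝ in atTop,
  ∀ (N T U ρ V : ℝ) (J : Finset ℤ) (E : Set ℝ) (p : ℕ → ℂ), 1 ≤ N → N ≤ X → 1 ≤ U → U ≤ T → T ≤ X →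
    0 < ρ → 0 < V → Dns T U ρ J E → (∀ n ∈ blk N c, ‖p n‖ ≤ X ^ δ) →
    (∀ t ∈ E, V ^ 2 * N ≤ ‖DP (blk N c) p t‖ ^ 2) →
    20 * ∑ n ∈ blk N c, ‖p n‖ ^ 2 ≤ ρ * V ^ 2 * N →
    U * J.card * ρ ^ 2 * V ^ 4 ≤ X ^ (10 * δ) * (T + N ^ 2) / U

/-- local mean square of the dual sum -/
def FwinStmt : Prop := ∀ c : ℝ, 1 ≤ c → ∃ C : ℝ, 1 ≤ C ∧ ∀ (N U τ₀ : ℝ) (M : ℕ), 1 ≤ N → 1 ≤ U →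
  ∫ τ in τ₀..τ₀ + U, ‖FF c N M τ‖ ^ 2 ≤ C * N * (M + U * (1 + Real.log (M + 1)))

/-- Halasz-Montgomery-Huxley for dense windows -/
def HStmt : Prop := ∀ c : ℝ, 1 ≤ c → ∃ C : ℝ, 1 ≤ C ∧ ∀ δ : ℝ, 0 < δ → ∀ C₁ : ℕ,
  ∀ᶠ X : ℝ in atTop, ∀ (N T U ρ V G : ℝ) (J : Finset ℤ) (E : Set ℝ) (p : ℕ → ℂ), 1 ≤ N → N ≤ X →
    1 ≤ U → U ≤ T → T ≤ X → 1 / Real.log X ^ C₁ ≤ ρ → 0 < V → 0 < G → G ≤ Real.log X ^ C₁ →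
    Dns T U ρ J E → (∀ t ∈ E, V ^ 2 * N ≤ ‖DP (blk N c) p t‖ ^ 2) →
    ∑ n ∈ blk N c, ‖p n‖ ^ 2 ≤ G * N → X ^ δ * N ≤ V ^ 4 →
    ρ * U * J.card * V ^ 2 ≤ C * G * N * (1 + X ^ δ * (T / U) / V ^ 4)

def WinStmt : Prop := ∀ ε : ℝ, 0 < ε → ε ≤ 1 / 100 → ∀ A : ℕ, ∃ B₀ : ℕ, ∀ B : ℕ, B₀ ≤ B →
  ∃ A₃ : ℕ, ∀ᶠ X : ℝ in atTop, ∀ (q : ℕ) [NeZero q] (U T : ℝ) (N : Fin 3 → ℝ)
    (a : Fin 3 → ℕ → ℂ) (E : Set ℝ), (q : ℝ) ≤ Real.log X ^ B → 1 ≤ U → U ≤ T →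
    q * T ≤ 100 * X / Real.log X ^ B → T ≤ U * X ^ (5 / 6 - ε) * Real.log X ^ 2 →
    (∀ i, 1 ≤ N i) → N 0 ≤ X ^ (1 / 2 + ε / 100) → N 1 ≤ X ^ (5 / 12 - ε / 4) →
    N 2 ≤ X ^ (5 / 12 - ε / 4) → X / 128 ≤ N 0 * N 1 * N 2 → N 0 * N 1 * N 2 ≤ 5 * X →
    (∀ i n, ‖a i n‖ ≤ 2 * Real.log X * dv n ^ 5) → MeasurableSet E → E ⊆ Set.Icc (-T) T →
    (∀ (χ : DirichletCharacter ℂ q) (i : Fin 3), ∀ t ∈ E,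
      ‖DP (blk (N i) 64) (fun n => a i n * χ n) t‖ ≤ N i / Real.log X ^ A₃) →
    q / (q.totient : ℝ) ^ 2 * WS T U E (fun t => ∑ χ : DirichletCharacter ℂ q,
      ∏ i, ‖DP (blk (N i) 64) (fun n => a i n * χ n) t‖) ≤ X ^ 2 / Real.log X ^ A

def FreezeStmt : Prop := ∀ A : ℕ, ∃ A₁ A₂ D₀ : ℕ, ∀ D : ℕ, D₀ ≤ D → ∀ᶠ X : ℝ in atTop,
  ∀ (H η : ℝ) (G : ℕ → ℂ), X ^ (1 / 6 : ℝ) ≤ H → H ≤ X ^ (1 / 5 : ℝ) → |η| ≤ 1 →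
    (∀ n, ‖G n‖ ≤ 2 * Real.log X * dv n ^ 5) →
    WS (8 * Real.pi * |η| * X + 4 * (X / H) * Real.log X) (max 1 (|η| * H) * Real.log X ^ A₁)
      (EE (Real.log X ^ D) (8 * Real.pi * |η| * X + 4 * (X / H) * Real.log X))
      (fun t => ‖DP (SX X) G t‖) ≤ X ^ 2 / Real.log X ^ A₂ →
    ∫ x in X..4 * X, ‖Del (SX X) G H (YY X D) η x‖ ^ 2 ≤ X * H ^ 2 / Real.log X ^ A

/-- sums with a long smooth variable -/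
def T1Stmt : Prop := ∀ ε : ℝ, 0 < ε → ε ≤ 1 / 100 → ∀ A : ℕ, ∃ B₀ : ℕ, ∀ B : ℕ, B₀ ≤ B →
  ∃ D₀ : ℕ, ∀ D : ℕ, D₀ ≤ D → ∀ᶠ X : ℝ in atTop, ∀ (q a N M : ℕ) (η : ℝ) (b : ℕ → ℂ) (c : ℕ → ℝ),
    Appr (Real.log X ^ B) q a η → X ^ (5 / 12 - ε / 4) ≤ 2 * N → (M : ℝ) * N ≤ 160 * X →
    (∀ m, ‖b m‖ ≤ 2 * Real.log X * dv m ^ 4) → MonotoneOn c (Set.Ioc N (2 * N)) →
    (∀ r ∈ Ioc N (2 * N), 0 ≤ c r ∧ c r ≤ 2 * Real.log X) →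
    ∫ x in X..4 * X, ‖∑ m ∈ Icc 1 M, ∑ r ∈ Ioc N (2 * N), b m * c r * exc q a (m * r) *
      kk (X ^ (1 / 6 + ε)) (YY X D) η ((m * r : ℕ) - x)‖ ^ 2 ≤
        X * (X ^ (1 / 6 + ε)) ^ 2 / Real.log X ^ A

/-! ### Combinatorial decomposition -/

def HbStmt : Prop := ∀ (Z : ℝ) (J : ℕ), 1 ≤ Z → ∃ c : (Fin 6 → ℕ) → ℝ, (∀ k, |c k| ≤ 7) ∧
  ∀ n : ℕ, (n : ℝ) ≤ Z ^ 3 → n ≤ 2 ^ J → (vonMangoldt n : ℂ) =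
    ∑ k ∈ Fintype.piFinset fun _ : Fin 6 => range (J + 1), c k * pc Z k univ n

def GroupStmt : Prop := ∀ (y : Fin 6 → ℝ) (κ : ℝ), (∀ i, 0 ≤ y i ∧ y i ≤ κ) →
  2 * ∑ i, y i ≤ 5 * κ → ∃ b c : Finset (Fin 6), Disjoint b c ∧ ∑ i ∈ b, y i ≤ κ ∧
    ∑ i ∈ c, y i ≤ κ ∧ ∑ i, y i ≤ 2 * (∑ i ∈ b, y i + ∑ i ∈ c, y i)

def CharStmt : Prop := ∀ (q : ℕ) [NeZero q] (a : ℕ), a.Coprime q →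
  ∃ c : DirichletCharacter ℂ q → ℂ, (∀ χ, ‖c χ‖ ≤ √q / q.totient) ∧
    ∀ n : ℕ, exc q a n = ∑ χ : DirichletCharacter ℂ q, c χ * χ n

/-- a piece all of whose factors are short -/
def ShortStmt : Prop := ∀ ε : ℝ, 0 < ε → ε ≤ 1 / 100 → ∀ A : ℕ, ∃ B₀ : ℕ, ∀ B : ℕ, B₀ ≤ B →
  ∃ D₀ : ℕ, ∀ D : ℕ, D₀ ≤ D → ∀ᶠ X : ℝ in atTop, ∀ (q a : ℕ) (η Z : ℝ) (k : Fin 6 → ℕ),
    Appr (Real.log X ^ B) q a η → X / 2 < 2 ^ ∑ i, k i → 2 ^ ∑ i, k i < 320 * X →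
    (∀ i, 2 ^ k i ≤ X ^ (5 / 12 - ε / 4)) →
    ∫ x in X..4 * X, ‖Del (SX X) (fun n => pc Z k univ n * exc q a n) (X ^ (1 / 6 + ε))
      (YY X D) η x‖ ^ 2 ≤ X * (X ^ (1 / 6 + ε)) ^ 2 / Real.log X ^ A

def PieceStmt : Prop := ∀ ε : ℝ, 0 < ε → ε ≤ 1 / 100 → ∀ A : ℕ, ∃ B₀ : ℕ, ∀ B : ℕ, B₀ ≤ B →
  ∃ D₀ : ℕ, ∀ D : ℕ, D₀ ≤ D → ∀ᶠ X : ℝ in atTop, ∀ (q a : ℕ) (η : ℝ) (k : Fin 6 → ℕ),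
    Appr (Real.log X ^ B) q a η → X / 2 < 2 ^ ∑ i, k i → 2 ^ ∑ i, k i < 320 * X →
    ∫ x in X..4 * X, ‖Del (SX X) (fun n => pc (2 * X ^ (1 / 3 : ℝ)) k univ n * exc q a n)
      (X ^ (1 / 6 + ε)) (YY X D) η x‖ ^ 2 ≤ X * (X ^ (1 / 6 + ε)) ^ 2 / Real.log X ^ A

def DelLamStmt : Prop := ∀ ε : ℝ, 0 < ε → ε ≤ 1 / 100 → ∀ A : ℕ, ∃ B₀ : ℕ, ∀ B : ℕ, B₀ ≤ B →
  ∃ D₀ : ℕ, ∀ D : ℕ, D₀ ≤ D → ∀ᶠ X : ℝ in atTop, ∀ (q a : ℕ) (η : ℝ),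
    Appr (Real.log X ^ B) q a η →
    ∫ x in X..4 * X, ‖Del (JX X) (fun n => (vonMangoldt n : ℂ) * ex (n * (a / q)))
      (X ^ (1 / 6 + ε)) (YY X D) η x‖ ^ 2 ≤ X * (X ^ (1 / 6 + ε)) ^ 2 / Real.log X ^ A

/-! ### Assembly -/

def KeyStmt : Prop := ∀ ε : ℝ, 0 < ε → ε ≤ 1 / 100 → ∀ A : ℕ, ∃ B₀ : ℕ, ∀ B : ℕ, B₀ ≤ B →
  ∀ᶠ X : ℝ in atTop, ∀ α : ℝ,
    ∫ x in X..4 * X, ‖∑ n ∈ JX X, ((vonMangoldt n : ℂ) - mdl ⌊Real.log X ^ B⌋₊ n) * ex (n * α) *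
      gs ((n - x) / X ^ (1 / 6 + ε))‖ ^ 2 ≤ X * (X ^ (1 / 6 + ε)) ^ 2 / Real.log X ^ A

def MsStmt : Prop := ∀ ε : ℝ, 0 < ε → ε ≤ 1 / 100 → ∀ A : ℕ, ∀ᶠ X : ℝ in atTop,
  ∀ u v h₀ K : ℕ, X ≤ u → u ≤ v → (v : ℝ) ≤ 2 * X → (h₀ : ℝ) ≤ X → X ^ (1 / 6 + ε) ≤ K →
    (K : ℝ) ≤ 2 * X ^ (1 / 6 + ε) →
    ∑ h ∈ Ioc h₀ (h₀ + K), |∑ n ∈ Ioc u v, vonMangoldt n * vonMangoldt (n + h) -
      sing h * ((v : ℝ) - u)| ≤ X * K / Real.log X ^ A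

def MainStmt : Prop := ∀ ε : ℝ, 0 < ε → ∀ A : ℕ, ∃ x₀ : ℝ, ∀ x : ℝ, x₀ ≤ x → ∀ h₀ H : ℕ,
  x ^ (1 / 6 + ε) ≤ H → (h₀ : ℝ) + H ≤ x ^ (1 - ε) →
    (((Ioc h₀ (h₀ + H)).filter fun d => x / Real.log x ^ A < |pairErr ⌊x⌋₊ d|).card : ℝ) ≤
        H / Real.log x ^ A ∧
      (((Ioc h₀ (h₀ + H)).filter fun d => Even d ∧
        10 * Real.log (Real.log x) / Real.log x * (sing d * x / Real.log x ^ 2) <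
          |(((Icc 1 ⌊x⌋₊).filter fun p : ℕ => p.Prime ∧ (p - d).Prime).card : ℝ) -
            sing d * x / Real.log x ^ 2|).card : ℝ) ≤ H / Real.log x ^ A

end Pool.Agent.MP_678834_nt.hl
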